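import Mathlib

set_option autoImplicit false

/-!
# From actions on linear orders to actions on the real line

A countable group that acts on a linear order acts on the real line, with a point that has the same
stabilizer as a given point.
-/

namespace Pool.Agent.R649.PD

universe u v

section ext

/-- The extension of an order automorphism of `ℚ` to `ℝ`. -/
noncomputable def F (f : ℚ ≃o ℚ) (x : ℝ) : ℝ :=
  sSup ((fun q : ℚ => ((f q : ℚ) : ℝ)) '' {q : ℚ | (q : ℝ) < x})

theorem F_bdd (f : ℚ ≃o ℚ) (x : ℝ) :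
    BddAbove ((fun q : ℚ => ((f q : ℚ) : ℝ)) '' {q : ℚ | (q : ℝ) < x}) := by
  obtain ⟨r, hr⟩ := exists_rat_gt x
  refine ⟨(f r : ℝ), ?_⟩
  rintro _ ⟨q, hq, rfl⟩
  have h1 : q < r := by
    have : (q : ℝ) < r := lt_trans hq hr
    exact_mod_cast this
  have h2 : f q ≤ f r := (f.lt_iff_lt.mpr h1).le
  show ((f q : ℚ) : ℝ) ≤ _
  exact_mod_cast h2

theorem F_nonempty (f : ℚ ≃o ℚ) (x : ℝ) :
    ((fun q : ℚ => ((f q : ℚ) : ℝ)) '' {q : ℚ | (q : ℝ) < x}).Nonempty := by
  obtain ⟨r, hr⟩ := exists_rat_lt x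
  exact ⟨_, r, hr, rfl⟩

theorem F_iff (f : ℚ ≃o ℚ) (x : ℝ) (q : ℚ) : ((f q : ℚ) : ℝ) < F f x ↔ (q : ℝ) < x := by
  constructor
  · intro h
    obtain ⟨_, ⟨r, hr, rfl⟩, h2⟩ := exists_lt_of_lt_csSup (F_nonempty f x) h
    have h3 : f q < f r := by
      have : ((f q : ℚ) : ℝ) < ((f r : ℚ) : ℝ) := h2
      exact_mod_cast this
    have h4 : (q : ℝ) < r := by exact_mod_cast f.lt_iff_lt.mp h3
    exact h4.trans hr
  · intro h
    obtain ⟨r, h1, h2⟩ := exists_rat_btwn h
    have h3 : q < r := by exact_mod_cast h1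
    have h4 : ((f q : ℚ) : ℝ) < ((f r : ℚ) : ℝ) := by exact_mod_cast f.lt_iff_lt.mpr h3
    exact lt_of_lt_of_le h4 (le_csSup (F_bdd f x) ⟨r, h2, rfl⟩)

theorem real_ext {z w : ℝ} (h : ∀ s : ℚ, (s : ℝ) < z ↔ (s : ℝ) < w) : z = w := by
  rcases lt_trichotomy z w with h1 | h1 | h1
  · obtain ⟨r, h2, h3⟩ := exists_rat_btwn h1
    exact absurd ((h r).mpr h3) (not_lt.mpr h2.le)
  · exact h1
  · obtain ⟨r, h2, h3⟩ := exists_rat_btwn h1
    exact absurd ((h r).mp h3) (not_lt.mpr h2.le)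

theorem F_mul (f g : ℚ ≃o ℚ) (x : ℝ) : F (f * g) x = F f (F g x) := by
  refine real_ext fun s => ?_
  obtain ⟨q, rfl⟩ := (f * g).surjective s
  rw [F_iff]
  show _ ↔ ((f (g q) : ℚ) : ℝ) < _
  rw [F_iff, F_iff]

theorem F_one (x : ℝ) : F 1 x = x := by
  refine real_ext fun s => ?_
  exact F_iff 1 x s

theorem F_rat (f : ℚ ≃o ℚ) (q : ℚ) : F f (q : ℝ) = ((f q : ℚ) : ℝ) := by
  refine real_ext fun s => ?_
  obtain ⟨r, rfl⟩ := f.surjective s
  rw [F_iff]
  constructor
  · intro h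
    have h1 : r < q := by exact_mod_cast h
    exact_mod_cast f.lt_iff_lt.mpr h1
  · intro h
    have h1 : f r < f q := by exact_mod_cast h
    exact_mod_cast f.lt_iff_lt.mp h1

theorem F_mono (f : ℚ ≃o ℚ) {x y : ℝ} (h : x ≤ y) : F f x ≤ F f y :=
  csSup_le_csSup (F_bdd f y) (F_nonempty f x)
    (Set.image_mono fun _ hq => lt_of_lt_of_le hq h)

/-- The extension as a homomorphism. -/
noncomputable def E : (ℚ ≃o ℚ) →* (ℝ ≃o ℝ) where
  toFun f :=
    { toFun := F f
      invFun := F f⁻¹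
      left_inv := fun x => by rw [← F_mul, inv_mul_cancel, F_one]
      right_inv := fun x => by rw [← F_mul, mul_inv_cancel, F_one]
      map_rel_iff' := by
        intro x y
        constructor
        · intro h
          have h1 := F_mono f⁻¹ h
          change F f⁻¹ (F f x) ≤ F f⁻¹ (F f y) at h1
          rwa [← F_mul, ← F_mul, inv_mul_cancel, F_one, F_one] at h1
        · exact fun h => F_mono f h }
  map_one' := by
    ext x
    exact F_one x
  map_mul' f g := by
    ext x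
    exact F_mul f g x

theorem E_rat (f : ℚ ≃o ℚ) (q : ℚ) : E f (q : ℝ) = ((f q : ℚ) : ℝ) := F_rat f q

end ext

section act
variable {G : Type v} [Group G] {X : Type u} [LinearOrder X]

/-- The orbit. -/
abbrev Orb (ρ : G →* (X ≃o X)) (p : X) : Type u := {v : X // ∃ g, ρ g p = v}

/-- The action on the orbit, times `ℚ`. -/
noncomputable def lexAct (ρ : G →* (X ≃o X)) (p : X) : G →* ((Orb ρ p ×ₗ ℚ) ≃o (Orb ρ p ×ₗ ℚ)) where
  toFun g :=
    { toFun := fun w => toLex (⟨ρ g (ofLex w).1.1, by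
        obtain ⟨k, hk⟩ := (ofLex w).1.2
        exact ⟨g * k, by rw [map_mul, ← hk]; rfl⟩⟩, (ofLex w).2)
      invFun := fun w => toLex (⟨ρ g⁻¹ (ofLex w).1.1, by
        obtain ⟨k, hk⟩ := (ofLex w).1.2
        exact ⟨g⁻¹ * k, by rw [map_mul, ← hk]; rfl⟩⟩, (ofLex w).2)
      left_inv := by
        intro w
        have h : ρ g⁻¹ (ρ g (ofLex w).1.1) = (ofLex w).1.1 := by
          rw [← RelIso.mul_apply, ← map_mul, inv_mul_cancel, map_one]; rfl
        apply ofLex.injective
        refine Prod.ext (Subtype.ext h) rfl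
      right_inv := by
        intro w
        have h : ρ g (ρ g⁻¹ (ofLex w).1.1) = (ofLex w).1.1 := by
          rw [← RelIso.mul_apply, ← map_mul, mul_inv_cancel, map_one]; rfl
        apply ofLex.injective
        refine Prod.ext (Subtype.ext h) rfl
      map_rel_iff' := by
        intro w z
        show toLex _ ≤ toLex _ ↔ _
        rw [Prod.Lex.toLex_le_toLex, Prod.Lex.le_iff]
        refine or_congr ?_ (and_congr ?_ Iff.rfl)
        · show ρ g (ofLex w).1.1 < ρ g (ofLex z).1.1 ↔ (ofLex w).1.1 < (ofLex z).1.1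
          exact (ρ g).lt_iff_lt
        · rw [Subtype.ext_iff, Subtype.ext_iff]
          exact (ρ g).injective.eq_iff }
  map_one' := by
    ext w
    show toLex _ = w
    apply ofLex.injective
    refine Prod.ext (Subtype.ext ?_) rfl
    show ρ 1 _ = _
    rw [map_one]; rfl
  map_mul' g h := by
    ext w
    apply ofLex.injective
    refine Prod.ext (Subtype.ext ?_) rfl
    show ρ (g * h) _ = ρ g (ρ h _)
    rw [map_mul]; rfl

/-- A countable group that acts on a linear order acts on the real line, with a point that has the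
same stabilizer as a given point. -/
theorem real_action [Countable G] (ρ : G →* (X ≃o X)) (p : X) :
    ∃ (ρ' : G →* (ℝ ≃o ℝ)) (s : ℝ), ∀ g, ρ' g s = s ↔ ρ g p = p := by
  have : Countable (Orb ρ p) := by
    have hs : Function.Surjective (fun g : G => (⟨ρ g p, g, rfl⟩ : Orb ρ p)) := by
      rintro ⟨v, g, rfl⟩
      exact ⟨g, rfl⟩
    exact hs.countable
  have : Nonempty (Orb ρ p) := ⟨⟨p, 1, by rw [map_one]; rfl⟩⟩
  have : Countable (Orb ρ p ×ₗ ℚ) := inferInstanceAs (Countable (Orb ρ p × ℚ))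
  have : Nonempty (Orb ρ p ×ₗ ℚ) := inferInstanceAs (Nonempty (Orb ρ p × ℚ))
  obtain ⟨φ⟩ := Order.iso_of_countable_dense (Orb ρ p ×ₗ ℚ) ℚ
  let C : ((Orb ρ p ×ₗ ℚ) ≃o (Orb ρ p ×ₗ ℚ)) →* (ℚ ≃o ℚ) :=
    { toFun := fun f => φ.symm.trans (f.trans φ)
      map_one' := by
        ext q
        show φ (φ.symm q) = q
        exact φ.apply_symm_apply q
      map_mul' := fun f g => by
        ext q
        show φ (f (g (φ.symm q))) = φ (f (φ.symm (φ (g (φ.symm q)))))
        rw [φ.symm_apply_apply] }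
  refine ⟨E.comp (C.comp (lexAct ρ p)),
    ((φ (toLex (⟨p, 1, by rw [map_one]; rfl⟩, 0)) : ℚ) : ℝ), fun g => ?_⟩
  show E (C (lexAct ρ p g)) _ = _ ↔ _
  rw [E_rat]
  have h1 : C (lexAct ρ p g) (φ (toLex (⟨p, 1, by rw [map_one]; rfl⟩, 0))) =
      φ (lexAct ρ p g (toLex (⟨p, 1, by rw [map_one]; rfl⟩, 0))) := by
    show φ (lexAct ρ p g (φ.symm (φ _))) = _
    rw [φ.symm_apply_apply]
  rw [h1, Rat.cast_inj, φ.injective.eq_iff]
  constructor
  · intro h
    have h2 := congrArg (fun w => (ofLex w).1.1) h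
    exact h2
  · intro h
    apply ofLex.injective
    exact Prod.ext (Subtype.ext h) rfl

end act

end Pool.Agent.R649.PD
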